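import Mathlib

set_option autoImplicit false

/-!
# The distinguishing index of the Mycielskian

For every connected graph with at least three vertices the distinguishing index of its Mycielskian
is at most the distinguishing index of the graph.
-/

namespace Pool.Agent.Results.MP_da4765_co.NoExceptions

open SimpleGraph

universe u

/-- The edge colouring `c` of `G` is distinguishing: the only automorphism of `G` that preserves
the colour of every edge is the identity. -/
def IsDistinguishing {V : Type u} (G : SimpleGraph V) {d : ℕ} (c : Sym2 V → Fin d) : Prop :=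
  ∀ σ : G ≃g G, (∀ a b, G.Adj a b → c s(σ a, σ b) = c s(a, b)) → ∀ v, σ v = v

/-- The distinguishing index: the least `d` such that `G` has a distinguishing edge colouring with
`d` colours. -/
noncomputable def distinguishingIndex {V : Type u} (G : SimpleGraph V) : ℕ :=
  sInf {d : ℕ | ∃ c : Sym2 V → Fin d, IsDistinguishing G c}

/-- The vertices of the Mycielskian: the old vertices `v i`, their shadows `u i`, and `w`. -/
inductive MV (V : Type u) : Type u
  | v : V → MV V
  | u : V → MV V
  | w : MV V

/-- Adjacency in the Mycielskian. -/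
def MAdj {V : Type u} (G : SimpleGraph V) : MV V → MV V → Prop
  | .v i, .v j => G.Adj i j
  | .v i, .u j => G.Adj i j
  | .u i, .v j => G.Adj i j
  | .u _, .w => True
  | .w, .u _ => True
  | .u _, .u _ => False
  | .v _, .w => False
  | .w, .v _ => False
  | .w, .w => False

/-- The Mycielskian of `G`: the edges of `G`, the edges `u i - v j` and `v i - u j` for every edge
`i - j` of `G`, and all edges `w - u i`. -/
def mycielskian {V : Type u} (G : SimpleGraph V) : SimpleGraph (MV V) where
  Adj := MAdj G
  symm := ⟨by
    rintro (i | i | _) (j | j | _) h <;> simp only [MAdj] at h ⊢ <;> exact h.symm⟩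
  loopless := ⟨by
    rintro (i | i | _) h <;> simp only [MAdj] at h
    exact G.irrefl h⟩

section
variable {V : Type u} {G : SimpleGraph V}

open MV

@[simp] lemma adj_vv (i j : V) : (mycielskian G).Adj (v i) (v j) ↔ G.Adj i j := Iff.rfl
@[simp] lemma adj_vu (i j : V) : (mycielskian G).Adj (v i) (u j) ↔ G.Adj i j := Iff.rfl
@[simp] lemma adj_uv (i j : V) : (mycielskian G).Adj (u i) (v j) ↔ G.Adj i j := Iff.rfl
@[simp] lemma adj_uw (i : V) : (mycielskian G).Adj (u i) w ↔ True := Iff.rfl
@[simp] lemma adj_wu (i : V) : (mycielskian G).Adj w (u i) ↔ True := Iff.rfl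
@[simp] lemma adj_uu (i j : V) : (mycielskian G).Adj (u i) (u j) ↔ False := Iff.rfl
@[simp] lemma adj_vw (i : V) : (mycielskian G).Adj (v i) w ↔ False := Iff.rfl
@[simp] lemma adj_wv (i : V) : (mycielskian G).Adj w (v i) ↔ False := Iff.rfl
@[simp] lemma adj_ww : (mycielskian G).Adj w w ↔ False := Iff.rfl

lemma v_inj : Function.Injective (v : V → MV V) := fun _ _ h => by cases h; rfl
lemma u_inj : Function.Injective (u : V → MV V) := fun _ _ h => by cases h; rfl

/-- number of neighbours of `x` -/
noncomputable def nd (H : SimpleGraph (MV V)) (x : MV V) : ℕ := {y | H.Adj x y}.ncard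

lemma ncard_map {W : Type u} (H : SimpleGraph W) (φ : H ≃g H) (P Q : W → Prop)
    (h : ∀ y, P y ↔ Q (φ y)) : {y | P y}.ncard = {y | Q y}.ncard := by
  have : {y | Q y} = φ '' {y | P y} := by
    ext y
    simp only [Set.mem_ofPred_eq, Set.mem_image]
    constructor
    · intro hy
      refine ⟨φ.symm y, ?_, by simp⟩
      rw [h]
      simpa using hy
    · rintro ⟨x, hx, rfl⟩
      exact (h x).1 hx
  rw [this, Set.ncard_image_of_injective _ φ.injective]

lemma half_v (k : V) :
    {y | (mycielskian G).Adj (v k) y ∧ (mycielskian G).Adj w y}.ncard = {j | G.Adj k j}.ncard := by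
  have : {y | (mycielskian G).Adj (v k) y ∧ (mycielskian G).Adj w y} = u '' {j | G.Adj k j} := by
    ext y
    rcases y with y | y | _ <;> simp
  rw [this, Set.ncard_image_of_injective _ u_inj]

lemma half_v' (k : V) :
    {y | (mycielskian G).Adj (v k) y ∧ ¬ (mycielskian G).Adj w y}.ncard =
      {j | G.Adj k j}.ncard := by
  have : {y | (mycielskian G).Adj (v k) y ∧ ¬ (mycielskian G).Adj w y} = v '' {j | G.Adj k j} := by
    ext y
    rcases y with y | y | _ <;> simp
  rw [this, Set.ncard_image_of_injective _ v_inj]

lemma half_u (i : V) :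
    {y | (mycielskian G).Adj (u i) y ∧ (mycielskian G).Adj (v i) y}.ncard =
      {j | G.Adj i j}.ncard := by
  have : {y | (mycielskian G).Adj (u i) y ∧ (mycielskian G).Adj (v i) y} =
      v '' {j | G.Adj i j} := by
    ext y
    rcases y with y | y | _ <;> simp
  rw [this, Set.ncard_image_of_injective _ v_inj]

lemma half_u' (i : V) :
    {y | (mycielskian G).Adj (u i) y ∧ ¬ (mycielskian G).Adj (v i) y}.ncard = 1 := by
  have : {y | (mycielskian G).Adj (u i) y ∧ ¬ (mycielskian G).Adj (v i) y} = {w} := by
    ext y
    rcases y with y | y | _ <;> simp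
  rw [this, Set.ncard_singleton]

lemma deg_w : {y | (mycielskian G).Adj w y}.ncard = Nat.card V := by
  have : {y | (mycielskian G).Adj w y} = u '' (Set.univ : Set V) := by
    ext y
    rcases y with y | y | _ <;> simp
  rw [this, Set.ncard_image_of_injective _ u_inj, Set.ncard_univ]

instance [Finite V] : Finite (MV V) := by
  have : Function.Surjective (fun x : V ⊕ V ⊕ Unit => match x with
    | .inl i => v i | .inr (.inl i) => u i | .inr (.inr _) => (w : MV V)) := by
    rintro (i | i | _)
    · exact ⟨.inl i, rfl⟩
    · exact ⟨.inr (.inl i), rfl⟩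
    · exact ⟨.inr (.inr ()), rfl⟩
  exact Finite.of_surjective _ this

lemma deg_v [Finite V] (i : V) :
    {y | (mycielskian G).Adj (v i) y}.ncard = 2 * {j | G.Adj i j}.ncard := by
  have h1 := half_v (G := G) i
  have h2 := half_v' (G := G) i
  have : {y | (mycielskian G).Adj (v i) y} =
      {y | (mycielskian G).Adj (v i) y ∧ (mycielskian G).Adj w y} ∪
      {y | (mycielskian G).Adj (v i) y ∧ ¬ (mycielskian G).Adj w y} := by
    ext y
    simp only [Set.mem_ofPred_eq, Set.mem_union]
    tauto
  rw [this, Set.ncard_union_eq]
  · omega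
  · rw [Set.disjoint_left]
    intro y h3 h4
    exact h4.2 h3.2

lemma deg_u [Finite V] (i : V) :
    {y | (mycielskian G).Adj (u i) y}.ncard = {j | G.Adj i j}.ncard + 1 := by
  have h1 := half_u (G := G) i
  have h2 := half_u' (G := G) i
  have : {y | (mycielskian G).Adj (u i) y} =
      {y | (mycielskian G).Adj (u i) y ∧ (mycielskian G).Adj (v i) y} ∪
      {y | (mycielskian G).Adj (u i) y ∧ ¬ (mycielskian G).Adj (v i) y} := by
    ext y
    simp only [Set.mem_ofPred_eq, Set.mem_union]
    tauto
  rw [this, Set.ncard_union_eq]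
  · omega
  · rw [Set.disjoint_left]
    intro y h3 h4
    exact h4.2 h3.2

/-- Unless `G` is a star, every automorphism of the Mycielskian fixes `w`. -/
lemma fix_w [Finite V] (h3 : 3 ≤ Nat.card V)
    (hs : ¬ ∃ z, ∀ a b, G.Adj a b → a = z ∨ b = z) (φ : mycielskian G ≃g mycielskian G) :
    φ w = w := by
  rcases h : φ w with i | i | _
  · -- `φ w = v i`
    exfalso
    have hk : ∃ k, φ.symm (u i) = v k := by
      have hna : ¬ (mycielskian G).Adj w (φ.symm (u i)) := by
        intro hadj
        have := φ.map_adj_iff.2 hadj
        rw [h] at this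
        simp at this
      rcases hh : φ.symm (u i) with k | k | _
      · exact ⟨k, rfl⟩
      · rw [hh] at hna
        simp at hna
      · have : φ w = u i := by rw [← hh]; simp
        rw [h] at this
        cases this
    obtain ⟨k, hk⟩ := hk
    have hk' : φ (v k) = u i := by rw [← hk]; simp
    have e1 := ncard_map (mycielskian G) φ
      (fun y => (mycielskian G).Adj (v k) y ∧ (mycielskian G).Adj w y)
      (fun y => (mycielskian G).Adj (u i) y ∧ (mycielskian G).Adj (v i) y)
      (by intro y; rw [← hk', ← h, φ.map_adj_iff, φ.map_adj_iff])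
    have e2 := ncard_map (mycielskian G) φ
      (fun y => (mycielskian G).Adj (v k) y ∧ ¬ (mycielskian G).Adj w y)
      (fun y => (mycielskian G).Adj (u i) y ∧ ¬ (mycielskian G).Adj (v i) y)
      (by intro y; rw [← hk', ← h, φ.map_adj_iff, φ.map_adj_iff])
    have e3 := ncard_map (mycielskian G) φ
      (fun y => (mycielskian G).Adj w y) (fun y => (mycielskian G).Adj (v i) y)
      (by intro y; rw [← h, φ.map_adj_iff])
    rw [half_v, half_u] at e1
    rw [half_v', half_u'] at e2
    rw [deg_w, deg_v] at e3
    omega
  · -- `φ w = u i`: then `G` is a star with centre `i`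
    exfalso
    apply hs
    have e3 := ncard_map (mycielskian G) φ
      (fun y => (mycielskian G).Adj w y) (fun y => (mycielskian G).Adj (u i) y)
      (by intro y; rw [← h, φ.map_adj_iff])
    rw [deg_w, deg_u] at e3
    have hall : ∀ j, j ≠ i → G.Adj i j := by
      have hsub : {j | G.Adj i j} ⊆ {i}ᶜ := by
        intro j hj
        simp only [Set.mem_compl_iff, Set.mem_singleton_iff]
        exact (G.ne_of_adj hj).symm
      have hc : ({i}ᶜ : Set V).ncard ≤ {j | G.Adj i j}.ncard := by
        have := Set.ncard_add_ncard_compl ({i} : Set V)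
        rw [Set.ncard_singleton] at this
        omega
      have := Set.eq_of_subset_of_ncard_le hsub hc
      intro j hj
      have hj' : j ∈ ({i}ᶜ : Set V) := by simpa using hj
      rw [← this] at hj'
      exact hj'
    refine ⟨i, fun a b hab => ?_⟩
    by_contra hcon
    push Not at hcon
    have ha : (mycielskian G).Adj (u i) (v a) := hall a hcon.1
    have hb : (mycielskian G).Adj (u i) (v b) := hall b hcon.2
    rw [← h, ← φ.apply_symm_apply (v a), φ.map_adj_iff] at ha
    rw [← h, ← φ.apply_symm_apply (v b), φ.map_adj_iff] at hb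
    have hab' : (mycielskian G).Adj (v a) (v b) := hab
    rw [← φ.apply_symm_apply (v a), ← φ.apply_symm_apply (v b), φ.map_adj_iff] at hab'
    rcases h1 : φ.symm (v a) with x | x | _ <;> rcases h2 : φ.symm (v b) with y | y | _ <;>
      rw [h1] at ha hab' <;> rw [h2] at hb hab' <;> simp at ha hb hab'
  · rfl

/-- The colouring used when `G` is not a star. -/
noncomputable def liftCol {d : ℕ} (c : Sym2 V → Fin d) (x0 : Fin d) : Sym2 (MV V) → Fin d :=
  Sym2.lift ⟨fun x y => match x, y with
    | .v i, .v j => c s(i, j)
    | .v i, .u j => c s(i, j)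
    | .u i, .v j => c s(i, j)
    | _, _ => x0, by
      rintro (i | i | _) (j | j | _) <;> first | rfl | exact congrArg c Sym2.eq_swap⟩

lemma nonstar [Finite V] (h3 : 3 ≤ Nat.card V)
    (hs : ¬ ∃ z, ∀ a b, G.Adj a b → a = z ∨ b = z) {d : ℕ} (c : Sym2 V → Fin d)
    (hc : IsDistinguishing G c) (x0 : Fin d) :
    IsDistinguishing (mycielskian G) (liftCol c x0) := by
  classical
  intro φ hφ
  have hw : φ w = w := fix_w h3 hs φ
  have hv : ∀ i, ∃ j, φ (v i) = v j := by
    intro i
    have h1 : ¬ (mycielskian G).Adj w (φ (v i)) := by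
      rw [← hw, φ.map_adj_iff]; simp
    rcases h : φ (v i) with j | j | _
    · exact ⟨j, rfl⟩
    · rw [h] at h1; simp at h1
    · rw [← hw] at h
      have := φ.injective h
      cases this
  have hu : ∀ i, ∃ j, φ (u i) = u j := by
    intro i
    have h1 : (mycielskian G).Adj w (φ (u i)) := by
      rw [← hw, φ.map_adj_iff]; simp
    rcases h : φ (u i) with j | j | _
    · rw [h] at h1; simp at h1
    · exact ⟨j, rfl⟩
    · rw [h] at h1; simp at h1
  choose f hf using hv
  choose g hg using hu
  have finj : Function.Injective f := by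
    intro a b hab
    apply v_inj
    apply φ.injective
    rw [hf, hf, hab]
  have fbij : Function.Bijective f := Finite.injective_iff_bijective.1 finj
  let σ : G ≃g G :=
    { toEquiv := Equiv.ofBijective f fbij
      map_rel_iff' := by
        intro a b
        have h1 : (mycielskian G).Adj (φ (v a)) (φ (v b)) ↔ (mycielskian G).Adj (v a) (v b) :=
          φ.map_adj_iff
        rw [hf, hf] at h1
        exact h1 }
  have hσ : ∀ i, f i = i := by
    refine hc σ ?_
    intro a b hab
    have h1 := hφ (v a) (v b) hab
    rw [hf, hf] at h1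
    exact h1
  have hfv : ∀ i, φ (v i) = v i := fun i => by rw [hf, hσ]
  have hN : ∀ i j, G.Adj (g i) j ↔ G.Adj i j := by
    intro i j
    have h1 : (mycielskian G).Adj (φ (u i)) (φ (v j)) ↔ (mycielskian G).Adj (u i) (v j) :=
      φ.map_adj_iff
    rw [hg, hfv] at h1
    exact h1
  have hC : ∀ i j, G.Adj i j → c s(g i, j) = c s(i, j) := by
    intro i j hij
    have h1 := hφ (u i) (v j) hij
    rw [hg, hfv] at h1
    exact h1
  have hgi : ∀ i, g i = i := by
    intro i
    have hna : ¬ G.Adj i (g i) := by
      intro h
      have := (hN i (g i)).2 h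
      exact G.irrefl this
    have key : ∀ a b, G.Adj a b →
        G.Adj (Equiv.swap i (g i) a) (Equiv.swap i (g i) b) ∧
        c s(Equiv.swap i (g i) a, Equiv.swap i (g i) b) = c s(a, b) := by
      have aux : ∀ a b, G.Adj a b → Equiv.swap i (g i) b = b →
          G.Adj (Equiv.swap i (g i) a) b ∧ c s(Equiv.swap i (g i) a, b) = c s(a, b) := by
        intro a b hab _
        by_cases h1 : a = i
        · subst h1
          rw [Equiv.swap_apply_left]
          exact ⟨(hN a b).2 hab, hC a b hab⟩
        · by_cases h2 : a = g i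
          · rw [h2, Equiv.swap_apply_right]
            rw [h2] at hab
            have h3 := (hN i b).1 hab
            exact ⟨h3, (hC i b h3).symm⟩
          · rw [Equiv.swap_apply_of_ne_of_ne h1 h2]
            exact ⟨hab, rfl⟩
      intro a b hab
      by_cases hb : Equiv.swap i (g i) b = b
      · rw [hb]; exact aux a b hab hb
      · have hbm : b = i ∨ b = g i := by
          by_contra hcon
          push Not at hcon
          exact hb (Equiv.swap_apply_of_ne_of_ne hcon.1 hcon.2)
        have ha : Equiv.swap i (g i) a = a := by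
          apply Equiv.swap_apply_of_ne_of_ne
          · rintro rfl
            rcases hbm with rfl | rfl
            · exact G.irrefl hab
            · exact hna hab
          · rintro rfl
            rcases hbm with rfl | rfl
            · exact hna hab.symm
            · exact G.irrefl hab
        have h1 := aux b a hab.symm ha
        rw [ha]
        refine ⟨h1.1.symm, ?_⟩
        rw [Sym2.eq_swap, h1.2, Sym2.eq_swap]
    let τ : G ≃g G :=
      { toEquiv := Equiv.swap i (g i)
        map_rel_iff' := by
          intro a b
          constructor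
          · intro h
            have := (key _ _ h).1
            simpa using this
          · intro h
            exact (key _ _ h).1 }
    have h1 := hc τ (fun a b hab => (key a b hab).2) i
    have h2 : τ i = g i := Equiv.swap_apply_left i (g i)
    rw [← h2, h1]
  rintro (i | i | _)
  · exact hfv i
  · rw [hg, hgi]
  · exact hw

/-- The colouring used when `G` is a star with centre `z`; `x0` and `x1` are two colours. -/
noncomputable def starCol {d : ℕ} (c : Sym2 V → Fin d) (z : V) (x0 x1 : Fin d) :
    Sym2 (MV V) → Fin d :=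
  Sym2.lift ⟨fun x y => match x, y with
    | .v _, .v _ => x0
    | .v i, .u j => open Classical in if j = z then c s(i, z) else x1
    | .u j, .v i => open Classical in if j = z then c s(i, z) else x1
    | .w, .u j => c s(j, z)
    | .u j, .w => c s(j, z)
    | _, _ => x0, by
      rintro (i | i | _) (j | j | _) <;> rfl⟩

lemma star [Finite V] (h3 : 3 ≤ Nat.card V) (hG : G.Connected) (z : V)
    (hs : ∀ a b, G.Adj a b → a = z ∨ b = z) {d : ℕ} (c : Sym2 V → Fin d)
    (hc : IsDistinguishing G c) :
    ∃ C : Sym2 (MV V) → Fin d, IsDistinguishing (mycielskian G) C := by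
  classical
  have hz : ∀ a, a ≠ z → G.Adj z a := by
    intro a ha
    obtain ⟨p⟩ := hG.preconnected a z
    cases p with
    | nil => exact absurd rfl ha
    | cons hadj q =>
      rcases hs _ _ hadj with h | h
      · exact absurd h ha
      · rw [h] at hadj; exact hadj.symm
  have hadj_iff : ∀ a b, G.Adj a b ↔ a ≠ b ∧ (a = z ∨ b = z) := by
    intro a b
    constructor
    · intro h; exact ⟨G.ne_of_adj h, hs a b h⟩
    · rintro ⟨h1, rfl | rfl⟩
      · exact hz b h1.symm
      · exact (hz a h1).symm
  -- the colours of the edges of the star are distinct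
  have hinj : ∀ a b, a ≠ z → b ≠ z → c s(a, z) = c s(b, z) → a = b := by
    intro a b ha hb hab
    let τ : G ≃g G :=
      { toEquiv := Equiv.swap a b
        map_rel_iff' := by
          intro x y
          rw [hadj_iff, hadj_iff]
          have e : ∀ x, Equiv.swap a b x = z ↔ x = z := by
            intro x
            constructor
            · intro h
              have := congrArg (Equiv.swap a b) h
              rw [Equiv.swap_apply_self, Equiv.swap_apply_of_ne_of_ne ha.symm hb.symm] at this
              exact this
            · rintro rfl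
              exact Equiv.swap_apply_of_ne_of_ne ha.symm hb.symm
          simp only [e, ne_eq, EmbeddingLike.apply_eq_iff_eq] }
    have hzz : Equiv.swap a b z = z := Equiv.swap_apply_of_ne_of_ne ha.symm hb.symm
    have key : ∀ x, x ≠ z → c s(Equiv.swap a b x, z) = c s(x, z) := by
      intro x _
      by_cases h1 : x = a
      · rw [h1, Equiv.swap_apply_left, hab]
      · by_cases h2 : x = b
        · rw [h2, Equiv.swap_apply_right, hab]
        · rw [Equiv.swap_apply_of_ne_of_ne h1 h2]
    have h1 := hc τ (by
      intro x y hxy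
      change c s(Equiv.swap a b x, Equiv.swap a b y) = c s(x, y)
      rcases ((hadj_iff x y).1 hxy).2 with rfl | rfl
      · rw [hzz, Sym2.eq_swap, key y (((hadj_iff x y).1 hxy).1).symm, Sym2.eq_swap]
      · rw [hzz]
        exact key x ((hadj_iff x y).1 hxy).1) a
    have h2 : τ a = b := Equiv.swap_apply_left a b
    rw [← h1, h2]
  -- two leaves
  obtain ⟨a, b, ha, hb, hab⟩ : ∃ a b : V, a ≠ z ∧ b ≠ z ∧ a ≠ b := by
    have h4 : 1 < ({z}ᶜ : Set V).ncard := by
      have := Set.ncard_add_ncard_compl ({z} : Set V)
      rw [Set.ncard_singleton] at this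
      omega
    obtain ⟨a, b, ha, hb, hab⟩ := (Set.one_lt_ncard_iff (Set.toFinite _)).1 h4
    exact ⟨a, b, by simpa using ha, by simpa using hb, hab⟩
  have hne : c s(a, z) ≠ c s(b, z) := fun h => hab (hinj a b ha hb h)
  obtain ⟨x0, hx0⟩ : ∃ x0, x0 = c s(a, z) := ⟨_, rfl⟩
  obtain ⟨x1, hx1⟩ : ∃ x1, x1 = c s(b, z) := ⟨_, rfl⟩
  have hx : x0 ≠ x1 := by rw [hx0, hx1]; exact hne
  refine ⟨starCol c z x0 x1, ?_⟩
  intro φ hφ
  have hdz : {j | G.Adj z j}.ncard + 1 = Nat.card V := by
    have h4 := Set.ncard_add_ncard_compl ({z} : Set V)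
    rw [Set.ncard_singleton] at h4
    have h5 : {j | G.Adj z j} = ({z}ᶜ : Set V) := by
      ext j
      simp only [Set.mem_ofPred_eq, Set.mem_compl_iff, Set.mem_singleton_iff, hadj_iff]
      constructor
      · rintro ⟨h, _⟩; exact h.symm
      · intro h; exact ⟨Ne.symm h, Or.inl trivial⟩
    rw [h5]; omega
  have hdl : ∀ i, i ≠ z → {j | G.Adj i j}.ncard = 1 := by
    intro i hi
    have h5 : {j | G.Adj i j} = {z} := by
      ext j
      simp only [Set.mem_ofPred_eq, Set.mem_singleton_iff, hadj_iff]
      constructor
      · rintro ⟨_, h | h⟩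
        · exact absurd h hi
        · exact h
      · rintro rfl; exact ⟨hi, Or.inr rfl⟩
    rw [h5, Set.ncard_singleton]
  have hdeg : ∀ x, {y | (mycielskian G).Adj (φ x) y}.ncard =
      {y | (mycielskian G).Adj x y}.ncard := by
    intro x
    exact (ncard_map (mycielskian G) φ _ _ (fun y => (φ.map_adj_iff).symm)).symm
  -- `v z` is fixed
  have hvz : φ (v z) = v z := by
    have h1 := hdeg (v z)
    rw [deg_v] at h1
    rcases h : φ (v z) with i | i | _
    · by_cases hi : i = z
      · rw [hi]
      · rw [h, deg_v, hdl i hi] at h1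
        omega
    · rw [h, deg_u] at h1
      by_cases hi : i = z
      · rw [hi] at h1; omega
      · rw [hdl i hi] at h1; omega
    · rw [h, deg_w] at h1
      omega
  -- leaves `v i`
  have hvl : ∀ i, i ≠ z → ∃ j, j ≠ z ∧ φ (v i) = v j := by
    intro i hi
    have hadj : (mycielskian G).Adj (v z) (v i) := hz i hi
    have h1 := hφ _ _ hadj
    have h2 : (mycielskian G).Adj (φ (v z)) (φ (v i)) := φ.map_adj_iff.2 hadj
    rw [hvz] at h1 h2
    have h3 := hdeg (v i)
    rw [deg_v, hdl i hi] at h3
    rcases h : φ (v i) with j | j | _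
    · rw [h] at h2
      exact ⟨j, (G.ne_of_adj h2).symm, rfl⟩
    · exfalso
      rw [h] at h1 h2
      by_cases hj : j = z
      · rw [hj] at h2
        exact G.irrefl h2
      · have h4 : starCol c z x0 x1 s(v z, u j) = x1 := by
          change (if j = z then _ else _) = _
          rw [if_neg hj]
        have h5 : starCol c z x0 x1 s(v z, v i) = x0 := rfl
        rw [h4, h5] at h1
        exact hx h1.symm
    · exfalso
      rw [h] at h2
      simp at h2
  -- leaves `u i`
  have hul : ∀ i, i ≠ z → ∃ j, j ≠ z ∧ φ (u i) = u j := by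
    intro i hi
    have hadj : (mycielskian G).Adj (v z) (u i) := hz i hi
    have h1 := hφ _ _ hadj
    have h2 : (mycielskian G).Adj (φ (v z)) (φ (u i)) := φ.map_adj_iff.2 hadj
    rw [hvz] at h1 h2
    rcases h : φ (u i) with j | j | _
    · exfalso
      rw [h] at h1 h2
      have h4 : starCol c z x0 x1 s(v z, u i) = x1 := by
        change (if i = z then _ else _) = _
        rw [if_neg hi]
      have h5 : starCol c z x0 x1 s(v z, v j) = x0 := rfl
      rw [h4, h5] at h1
      exact hx h1
    · rw [h] at h2
      exact ⟨j, (G.ne_of_adj h2).symm, rfl⟩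
    · exfalso
      rw [h] at h2
      simp at h2
  have hw : φ w = w := by
    obtain ⟨j, hj, hj'⟩ := hul a ha
    have h2 : (mycielskian G).Adj (φ (u a)) (φ w) := φ.map_adj_iff.2 (by simp)
    rw [hj'] at h2
    rcases h : φ w with i | i | _
    · exfalso
      rw [h] at h2
      have h5 : i = z := by
        rcases hs _ _ h2 with h6 | h6
        · exact absurd h6 hj
        · exact h6
      rw [h5, ← hvz] at h
      have := φ.injective h
      cases this
    · rw [h] at h2; simp at h2
    · rfl
  have huz : φ (u z) = u z := by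
    have h2 : (mycielskian G).Adj (φ w) (φ (u z)) := φ.map_adj_iff.2 (by simp)
    rw [hw] at h2
    have h3 := hdeg (u z)
    rw [deg_u] at h3
    rcases h : φ (u z) with i | i | _
    · rw [h] at h2; simp at h2
    · by_cases hi : i = z
      · rw [hi]
      · rw [h, deg_u, hdl i hi] at h3
        omega
    · rw [h] at h2; simp at h2
  rintro (i | i | _)
  · by_cases hi : i = z
    · rw [hi]; exact hvz
    · obtain ⟨j, hj, hj'⟩ := hvl i hi
      have hadj : (mycielskian G).Adj (u z) (v i) := hz i hi
      have h1 := hφ _ _ hadj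
      rw [huz, hj'] at h1
      have h4 : ∀ k, starCol c z x0 x1 s(u z, v k) = c s(k, z) := by
        intro k
        change (if z = z then _ else _) = _
        rw [if_pos rfl]
      rw [h4, h4] at h1
      rw [hj', hinj j i hj hi h1]
  · by_cases hi : i = z
    · rw [hi]; exact huz
    · obtain ⟨j, hj, hj'⟩ := hul i hi
      have hadj : (mycielskian G).Adj w (u i) := by simp
      have h1 := hφ _ _ hadj
      rw [hw, hj'] at h1
      have h4 : ∀ k, starCol c z x0 x1 s(w, u k) = c s(k, z) := fun k => rfl
      rw [h4, h4] at h1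
      rw [hj', hinj j i hj hi h1]
  · exact hw

/-- A connected graph with at least three vertices has a distinguishing edge colouring. -/
lemma exists_dist [Finite V] (h3 : 3 ≤ Nat.card V) (hG : G.Connected) :
    ∃ d, ∃ c : Sym2 V → Fin d, IsDistinguishing G c := by
  classical
  obtain ⟨d, ⟨e⟩⟩ := Finite.exists_equiv_fin (Sym2 V)
  refine ⟨d, e, ?_⟩
  intro σ hσ x
  by_contra hx
  have hσ' : ∀ a b, G.Adj a b → s(σ a, σ b) = s(a, b) := fun a b hab => e.injective (hσ a b hab)
  have h1 : ∀ y, G.Adj x y → y = σ x := by
    intro y hy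
    have := hσ' x y hy
    rw [Sym2.eq_iff] at this
    rcases this with h | h
    · exact absurd h.1 hx
    · exact h.1.symm
  have hxa : G.Adj x (σ x) := by
    have hnt : Nontrivial V := by
      rw [← Finite.one_lt_card_iff_nontrivial]; omega
    obtain ⟨y, hy⟩ := hG.preconnected.exists_adj_of_nontrivial x
    rwa [h1 y hy] at hy
  have hsx : σ (σ x) = x := by
    have := hσ' x (σ x) hxa
    rw [Sym2.eq_iff] at this
    rcases this with h | h
    · exact absurd h.1 hx
    · exact h.2
  have h2 : ∀ y, G.Adj (σ x) y → y = x := by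
    intro y hy
    have := hσ' (σ x) y hy
    rw [hsx, Sym2.eq_iff] at this
    rcases this with h | h
    · exact absurd h.1.symm hx
    · exact h.1.symm
  have h4 : ∀ y, G.Reachable x y → y = x ∨ y = σ x := by
    rintro y ⟨p⟩
    have : ∀ (a b : V) (p : G.Walk a b), (a = x ∨ a = σ x) → (b = x ∨ b = σ x) := by
      intro a b p
      induction p with
      | nil => exact id
      | cons hadj q ih =>
        rintro (h | h)
        · subst h; exact ih (Or.inr (h1 _ hadj))
        · rw [h] at hadj; exact ih (Or.inl (h2 _ hadj))
    exact this x y p (Or.inl rfl)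
  have h5 : (Set.univ : Set V) ⊆ {x, σ x} := by
    intro y _
    exact h4 y (hG.preconnected x y)
  have h6 := Set.ncard_le_ncard h5 (Set.toFinite _)
  rw [Set.ncard_univ] at h6
  have h7 : ({x, σ x} : Set V).ncard ≤ 2 := Set.ncard_insert_le _ _ |>.trans (by simp)
  omega

end

/-- **The distinguishing index of the Mycielskian.** Let `G` be a connected graph with at least
three vertices. Then the distinguishing indices of `G` and of its Mycielskian are both defined, and
the one of the Mycielskian is at most the one of `G`. So there is no exceptional graph at all. -/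
theorem result {V : Type u} [Finite V] (G : SimpleGraph V) (hG : G.Connected)
    (h3 : 3 ≤ Nat.card V) :
    (∃ d, ∃ c : Sym2 V → Fin d, IsDistinguishing G c) ∧
    (∃ d, ∃ c : Sym2 (MV V) → Fin d, IsDistinguishing (mycielskian G) c) ∧
    distinguishingIndex (mycielskian G) ≤ distinguishingIndex G := by
  have h1 := exists_dist h3 hG
  have key : ∀ d, (∃ c : Sym2 V → Fin d, IsDistinguishing G c) →
      ∃ c : Sym2 (MV V) → Fin d, IsDistinguishing (mycielskian G) c := by
    rintro d ⟨c, hc⟩
    by_cases hs : ∃ z, ∀ a b, G.Adj a b → a = z ∨ b = z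
    · obtain ⟨z, hz⟩ := hs
      exact star h3 hG z hz c hc
    · have hne : Nonempty V := hG.nonempty
      obtain ⟨x⟩ := hne
      exact ⟨_, nonstar h3 hs c hc (c s(x, x))⟩
  refine ⟨h1, ?_, ?_⟩
  · obtain ⟨d, h⟩ := h1
    exact ⟨d, key d h⟩
  · exact Nat.sInf_le (key _ (Nat.sInf_mem (s := {d | ∃ c : Sym2 V → Fin d, IsDistinguishing G c}) h1))

end Pool.Agent.Results.MP_da4765_co.NoExceptions
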